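import Pool.Agent.Helper65.KP.Main

/-!
# No Koebe square pyramid has its center of mass at the origin

The square pyramid with apex `(0, 0, √2)` and base vertices `(± √2, 0, 0)`, `(0, ± √2, 0)` is a Koebe polyhedron
(all its edges are tangent to the unit sphere), and no Koebe polyhedron in its combinatorial class has its
center of mass `cm_3` at the origin. So the answer to the question is negative. The notions are those of the
problem file: faces are exposed faces, the combinatorial class is given by the isomorphism type of the face
lattice, edges are the faces of dimension one, and an edge is tangent if it contains a point of the sphere while
its line does not enter the open ball.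
-/

namespace Pool.Agent.Results.MP_af0770_co.SquarePyramid

open Pool.Agent.Helper65.KP

theorem result :
    IsKoebe pyramid ∧ ∀ Q : Set E3, IsKoebe Q → SameClass pyramid Q → cm3 Q ≠ 0 :=
  ⟨pyramid_koebe, main⟩

end Pool.Agent.Results.MP_af0770_co.SquarePyramid
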